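import Mathlib
import Pool.Agent.NPC.Defs

/-!
# GlobalECC: instances, assignments, cost, bicriteria approximation algorithms

Polynomial time is `Pool.Agent.NPC.PolyTime` (Mathlib's `Turing.TM2ComputableInPolyTime`, functions
on bit strings) and `Pool.Agent.NPC.bits` is the standard coding of lists, pairs and natural
numbers (in binary) by bit strings.
-/

set_option autoImplicit false

namespace Pool.Agent.V5helper69.ECC

open Pool.Agent.NPC

/-- An instance of GlobalECC: the nodes, the colours, the hyperedges with their colours (a
hyperedge is a nonempty set of nodes, given by the list of its nodes) and the budget.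
Different entries of the list `E` are different hyperedges. -/
structure Inst where
  /-- the nodes -/
  V : List ℕ
  /-- the colours -/
  C : List ℕ
  /-- the hyperedges, each with its colour -/
  E : List (List ℕ × ℕ)
  /-- the budget -/
  b : ℕ
  nodup_V : V.Nodup
  nodup_C : C.Nodup
  C_ne : C ≠ []
  edge_nodup : ∀ e ∈ E, e.1.Nodup
  edge_ne : ∀ e ∈ E, e.1 ≠ []
  edge_sub : ∀ e ∈ E, ∀ v ∈ e.1, v ∈ V
  edge_col : ∀ e ∈ E, e.2 ∈ C

/-- the instance as a bit string -/
def Inst.code (I : Inst) : List Bool := bits (I.V, I.C, I.E, I.b)

/-- `S` assigns to every node a nonempty set of colours -/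
def Inst.IsAssignment (I : Inst) (S : ℕ → Finset ℕ) : Prop :=
  ∀ v ∈ I.V, (S v).Nonempty ∧ ∀ c ∈ S v, c ∈ I.C

/-- the part of the budget that is used: the number of additional colours, summed over the nodes -/
def Inst.extra (I : Inst) (S : ℕ → Finset ℕ) : ℕ := (I.V.map fun v => (S v).card - 1).sum

/-- the number of mistakes: hyperedges `e` with a node that is not given the colour of `e` -/
def Inst.mistakes (I : Inst) (S : ℕ → Finset ℕ) : ℕ :=
  (I.E.filter fun e => decide (¬ ∀ v ∈ e.1, e.2 ∈ S v)).length

/-- There is a bicriteria `(α, β)`-approximation for GlobalECC: a polynomial-time algorithm `A`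
which, on every instance, outputs an assignment (listing, for every node in the given order, the
colours of the node) that uses at most `β * b` additional colours and makes at most `α` times as
many mistakes as any assignment within the budget `b`. -/
def HasBicriteria (α β : ℕ) : Prop :=
  ∃ A : List Bool → List Bool, PolyTime A ∧ ∀ I : Inst, ∃ L : ℕ → List ℕ,
    A I.code = bits (I.V.map L) ∧
    I.IsAssignment (fun v => (L v).toFinset) ∧
    I.extra (fun v => (L v).toFinset) ≤ β * I.b ∧
    ∀ S, I.IsAssignment S → I.extra S ≤ I.b →
      I.mistakes (fun v => (L v).toFinset) ≤ α * I.mistakes S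

end Pool.Agent.V5helper69.ECC
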