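import Mathlib

/-!
# The local ratio algorithm for GlobalECC

Items are the hyperedges (given by their positions) and the pairs `(v, c)` of a node and a colour.
Hyperedges have weight `p.1` and pairs have weight `p.2`.  A conflict consists of two hyperedges of
different colours with a common node `v` and of the two pairs of `v` and these colours.  The local
ratio method finds a set of items that meets all conflicts and has at most four times the least
weight of such a set.
-/

set_option autoImplicit false

namespace Pool.Agent.V5helper69.ECC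

/-- Items: positions of hyperedges, and pairs (node, colour). -/
abbrev Item := ℕ ⊕ (ℕ × ℕ)

instance : LawfulBEq Item where
  eq_of_beq := by
    intro a b h
    rcases a with a | a <;> rcases b with b | b
    · exact congrArg Sum.inl (eq_of_beq (α := ℕ) h)
    · exact Bool.noConfusion h
    · exact Bool.noConfusion h
    · exact congrArg Sum.inr (eq_of_beq (α := ℕ × ℕ) h)
  rfl := by
    intro a
    rcases a with a | a
    · exact beq_self_eq_true (α := ℕ) a
    · exact beq_self_eq_true (α := ℕ × ℕ) a

/-- weights -/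
def wt (p : ℕ × ℕ) : Item → ℕ
  | Sum.inl _ => p.1
  | Sum.inr _ => p.2

/-- the conflicts of two hyperedges -/
def conf2 (e f : (List ℕ × ℕ) × ℕ) : List (List Item) :=
  if e.1.2 = f.1.2 then [] else
    (e.1.1.filter fun v => decide (v ∈ f.1.1)).map fun v =>
      [Sum.inl e.2, Sum.inl f.2, Sum.inr (v, e.1.2), Sum.inr (v, f.1.2)]

/-- the list of all conflicts -/
def confs (E : List (List ℕ × ℕ)) : List (List Item) :=
  E.zipIdx.flatMap fun e => E.zipIdx.flatMap fun f => conf2 e f

/-- the amount already charged to an item -/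
def load (s : List (List Item × ℕ)) (x : Item) : ℕ :=
  ((s.filter fun k => decide (x ∈ k.1)).map Prod.snd).sum

/-- minimum of a list and a default value -/
def minL (d : ℕ) (l : List ℕ) : ℕ := l.foldr min d

/-- one step -/
def step (p : ℕ × ℕ) (s : List (List Item × ℕ)) (k : List Item) : List (List Item × ℕ) :=
  (k, minL (p.1 + p.2) (k.map fun x => wt p x - load s x)) :: s

/-- the charges made by the algorithm -/
def run (p : ℕ × ℕ) (E : List (List ℕ × ℕ)) : List (List Item × ℕ) := (confs E).foldl (step p) []

/-- the item is used up -/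
def inD (p : ℕ × ℕ) (E : List (List ℕ × ℕ)) (x : Item) : Bool := decide (wt p x ≤ load (run p E) x)

/-- the node `v` needs the colour `c` -/
def needed (p : ℕ × ℕ) (E : List (List ℕ × ℕ)) (v c : ℕ) : Bool :=
  E.zipIdx.any fun e => decide (v ∈ e.1.1) && (decide (e.1.2 = c) && !(inD p E (Sum.inl e.2)))

/-- the colours of the node `v` -/
def sol (p : ℕ × ℕ) (C : List ℕ) (E : List (List ℕ × ℕ)) (v : ℕ) : List ℕ :=
  if C.filter (needed p E v) = [] then [C.headD 0] else C.filter (needed p E v)

/-- the number of additional colours used -/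
def extraL (V : List ℕ) (S : ℕ → List ℕ) : ℕ := (V.map fun v => (S v).length - 1).sum

/-- the hyperedge is not satisfied -/
def bad (S : ℕ → List ℕ) (e : List ℕ × ℕ) : Bool := !(e.1.all fun v => decide (e.2 ∈ S v))

/-- the number of mistakes -/
def mistL (E : List (List ℕ × ℕ)) (S : ℕ → List ℕ) : ℕ := (E.filter (bad S)).length

theorem load_nil (x : Item) : load [] x = 0 := by simp [load]

theorem load_cons (k : List Item × ℕ) (s : List (List Item × ℕ)) (x : Item) :
    load (k :: s) x = (if x ∈ k.1 then k.2 else 0) + load s x := by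
  unfold load
  rw [List.filter_cons]
  split <;> simp_all

theorem minL_le {d : ℕ} {l : List ℕ} {a : ℕ} (h : a ∈ l) : minL d l ≤ a := by
  induction l with
  | nil => simp at h
  | cons b l ih =>
    have e : minL d (b :: l) = min b (minL d l) := rfl
    rw [e]
    rcases List.mem_cons.1 h with rfl | h
    · exact min_le_left _ _
    · exact le_trans (min_le_right _ _) (ih h)

theorem minL_mem {d : ℕ} {l : List ℕ} (hne : l ≠ []) (h : ∀ a ∈ l, a ≤ d) : minL d l ∈ l := by
  induction l with
  | nil => exact absurd rfl hne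
  | cons b l ih =>
    have e : minL d (b :: l) = min b (minL d l) := rfl
    rw [e]
    by_cases hl : l = []
    · subst hl
      have : minL d [] = d := rfl
      rw [this, min_eq_left (h b List.mem_cons_self)]
      exact List.mem_cons_self
    · have := ih hl fun a ha => h a (List.mem_cons_of_mem _ ha)
      rcases min_choice b (minL d l) with h1 | h1
      · rw [h1]; exact List.mem_cons_self
      · rw [h1]; exact List.mem_cons_of_mem _ this

theorem wt_le (p : ℕ × ℕ) (x : Item) : wt p x ≤ p.1 + p.2 := by
  cases x <;> simp [wt]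

theorem run_inv (p : ℕ × ℕ) : ∀ (L : List (List Item)) (s : List (List Item × ℕ)),
    (∀ x, load s x ≤ wt p x) →
    (∀ x, load (L.foldl (step p) s) x ≤ wt p x) ∧
    (∀ x, load s x ≤ load (L.foldl (step p) s) x) ∧
    (∀ k ∈ L, k ≠ [] → ∃ x ∈ k, wt p x ≤ load (L.foldl (step p) s) x) ∧
    (∀ k ∈ L.foldl (step p) s, k.1 ∈ L ∨ k ∈ s)
  | [], s, h => ⟨h, fun _ => le_rfl, by simp, fun k hk => Or.inr hk⟩
  | k :: L, s, h => by
    have h1 : ∀ x, load (step p s k) x ≤ wt p x := by
      intro x
      unfold step
      rw [load_cons]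
      split
      · rename_i hx
        have := minL_le (d := p.1 + p.2) (List.mem_map_of_mem (f := fun x => wt p x - load s x) hx)
        have h2 := h x
        simp only at this ⊢
        omega
      · have h2 := h x
        omega
    have hmono : ∀ x, load s x ≤ load (step p s k) x := by
      intro x
      unfold step
      rw [load_cons]
      omega
    obtain ⟨a1, a2, a3, a4⟩ := run_inv p L (step p s k) h1
    rw [List.foldl_cons]
    refine ⟨a1, fun x => (hmono x).trans (a2 x), ?_, ?_⟩
    · intro k' hk' hne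
      rcases List.mem_cons.1 hk' with rfl | hk'
      · have hm : minL (p.1 + p.2) (k'.map fun x => wt p x - load s x) ∈
            k'.map fun x => wt p x - load s x := by
          refine minL_mem (by simpa using hne) ?_
          intro a ha
          obtain ⟨x, _, rfl⟩ := List.mem_map.1 ha
          have := wt_le p x
          omega
        obtain ⟨x, hx, hxe⟩ := List.mem_map.1 hm
        refine ⟨x, hx, le_trans ?_ (a2 x)⟩
        unfold step
        rw [load_cons, if_pos hx]
        have h2 := h x
        simp only at hxe ⊢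
        omega
      · exact a3 k' hk' hne
    · intro k' hk'
      rcases a4 k' hk' with h2 | h2
      · exact Or.inl (List.mem_cons_of_mem _ h2)
      · unfold step at h2
        rcases List.mem_cons.1 h2 with rfl | h2
        · exact Or.inl List.mem_cons_self
        · exact Or.inr h2

theorem run_load_le (p : ℕ × ℕ) (E : List (List ℕ × ℕ)) (x : Item) : load (run p E) x ≤ wt p x :=
  (run_inv p (confs E) [] fun x => by rw [load_nil]; exact Nat.zero_le _).1 x

theorem run_hit (p : ℕ × ℕ) (E : List (List ℕ × ℕ)) {k : List Item} (hk : k ∈ confs E)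
    (hne : k ≠ []) : ∃ x ∈ k, inD p E x = true := by
  obtain ⟨x, hx, h⟩ := (run_inv p (confs E) [] fun x => by
    rw [load_nil]; exact Nat.zero_le _).2.2.1 k hk hne
  exact ⟨x, hx, by unfold inD; exact decide_eq_true h⟩

theorem run_mem (p : ℕ × ℕ) (E : List (List ℕ × ℕ)) {k : List Item × ℕ} (hk : k ∈ run p E) :
    k.1 ∈ confs E := by
  rcases (run_inv p (confs E) [] fun x => by
    rw [load_nil]; exact Nat.zero_le _).2.2.2 k hk with h | h
  · exact h
  · simp at h

/-- double counting -/
theorem sum_load (F : Finset Item) (s : List (List Item × ℕ)) :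
    ∑ x ∈ F, load s x = (s.map fun k => k.2 * (F.filter fun x => x ∈ k.1).card).sum := by
  induction s with
  | nil => simp [load_nil]
  | cons k s ih =>
    simp only [load_cons, Finset.sum_add_distrib, ih, List.map_cons, List.sum_cons]
    congr 1
    rw [← Finset.sum_filter, Finset.sum_const, smul_eq_mul, mul_comm]

theorem sum_load_le (F : Finset Item) (s : List (List Item × ℕ)) (h : ∀ k ∈ s, k.1.length ≤ 4) :
    ∑ x ∈ F, load s x ≤ 4 * (s.map Prod.snd).sum := by
  rw [sum_load]
  induction s with
  | nil => simp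
  | cons k s ih =>
    rw [List.map_cons, List.sum_cons, List.map_cons, List.sum_cons, mul_add]
    refine Nat.add_le_add ?_ (ih fun k' hk' => h k' (List.mem_cons_of_mem _ hk'))
    have h1 : (F.filter fun x => x ∈ k.1).card ≤ 4 := by
      calc (F.filter fun x => x ∈ k.1).card ≤ k.1.toFinset.card := by
            apply Finset.card_le_card
            intro x hx
            rw [List.mem_toFinset]
            exact (Finset.mem_filter.1 hx).2
        _ ≤ k.1.length := List.toFinset_card_le _
        _ ≤ 4 := h k List.mem_cons_self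
    calc k.2 * (F.filter fun x => x ∈ k.1).card ≤ k.2 * 4 := Nat.mul_le_mul_left _ h1
      _ = 4 * k.2 := mul_comm _ _

theorem le_sum_load (F : Finset Item) (s : List (List Item × ℕ)) (h : ∀ k ∈ s, ∃ x ∈ F, x ∈ k.1) :
    (s.map Prod.snd).sum ≤ ∑ x ∈ F, load s x := by
  rw [sum_load]
  induction s with
  | nil => simp
  | cons k s ih =>
    rw [List.map_cons, List.sum_cons, List.map_cons, List.sum_cons]
    refine Nat.add_le_add ?_ (ih fun k' hk' => h k' (List.mem_cons_of_mem _ hk'))
    obtain ⟨x, hx, hxk⟩ := h k List.mem_cons_self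
    have h1 : 1 ≤ (F.filter fun x => x ∈ k.1).card :=
      Finset.card_pos.2 ⟨x, Finset.mem_filter.2 ⟨hx, hxk⟩⟩
    calc k.2 = k.2 * 1 := (mul_one _).symm
      _ ≤ _ := Nat.mul_le_mul_left _ h1

theorem mem_conf2 {e f : (List ℕ × ℕ) × ℕ} {k : List Item} : k ∈ conf2 e f ↔
    e.1.2 ≠ f.1.2 ∧ ∃ v, v ∈ e.1.1 ∧ v ∈ f.1.1 ∧
      k = [Sum.inl e.2, Sum.inl f.2, Sum.inr (v, e.1.2), Sum.inr (v, f.1.2)] := by
  unfold conf2
  split
  · rename_i h
    simp [h]
  · rename_i h
    simp only [List.mem_map, List.mem_filter, decide_eq_true_eq]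
    constructor
    · rintro ⟨v, ⟨h1, h2⟩, rfl⟩
      exact ⟨h, v, h1, h2, rfl⟩
    · rintro ⟨_, v, h1, h2, rfl⟩
      exact ⟨v, ⟨h1, h2⟩, rfl⟩

theorem mem_confs {E : List (List ℕ × ℕ)} {k : List Item} : k ∈ confs E ↔
    ∃ (i j : ℕ) (e f : List ℕ × ℕ) (v : ℕ), E[i]? = some e ∧ E[j]? = some f ∧ e.2 ≠ f.2 ∧
      v ∈ e.1 ∧ v ∈ f.1 ∧ k = [Sum.inl i, Sum.inl j, Sum.inr (v, e.2), Sum.inr (v, f.2)] := by
  unfold confs
  simp only [List.mem_flatMap, mem_conf2, Prod.exists]
  constructor
  · rintro ⟨a, c, i, hi, a', c', j, hj, hne, v, h1, h2, h3⟩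
    exact ⟨i, j, a, c, a', c', v, List.mem_zipIdx_iff_getElem?.1 hi,
      List.mem_zipIdx_iff_getElem?.1 hj, hne, h1, h2, h3⟩
  · rintro ⟨i, j, a, c, a', c', v, hi, hj, hne, h1, h2, h3⟩
    exact ⟨a, c, i, List.mem_zipIdx_iff_getElem?.2 hi, a', c', j,
      List.mem_zipIdx_iff_getElem?.2 hj, hne, v, h1, h2, h3⟩

theorem needed_iff {p : ℕ × ℕ} {E : List (List ℕ × ℕ)} {v c : ℕ} : needed p E v c = true ↔
    ∃ (i : ℕ) (e : List ℕ × ℕ), E[i]? = some e ∧ v ∈ e.1 ∧ e.2 = c ∧ ¬ inD p E (Sum.inl i) = true := by
  unfold needed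
  simp only [List.any_eq_true, Bool.and_eq_true, decide_eq_true_eq, Bool.not_eq_true',
    Bool.not_eq_true, Prod.exists]
  constructor
  · rintro ⟨a, c', i, hi, h1, h2, h3⟩
    exact ⟨i, a, c', List.mem_zipIdx_iff_getElem?.1 hi, h1, h2, h3⟩
  · rintro ⟨i, a, c', hi, h1, h2, h3⟩
    exact ⟨a, c', i, List.mem_zipIdx_iff_getElem?.2 hi, h1, h2, h3⟩

open Classical in
theorem card_positions_aux {α : Type} (P : α → Bool) (l : List α) : (l.filter P).length =
    ((Finset.range l.length).filter fun i => ∃ e, l[i]? = some e ∧ P e = true).card := by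
  induction l using List.reverseRecOn with
  | nil => simp
  | append_singleton l a ih =>
    rw [List.filter_append, List.length_append, ih, List.length_append, List.length_singleton,
      Finset.range_add_one, Finset.filter_insert]
    have h1 : (Finset.range l.length).filter (fun i => ∃ e, (l ++ [a])[i]? = some e ∧ P e = true) =
        (Finset.range l.length).filter (fun i => ∃ e, l[i]? = some e ∧ P e = true) := by
      ext i
      simp only [Finset.mem_filter, Finset.mem_range]
      refine and_congr_right fun hi => ?_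
      rw [List.getElem?_append_left hi]
    have h2 : (∃ e, (l ++ [a])[l.length]? = some e ∧ P e = true) ↔ P a = true := by
      simp
    by_cases hP : P a = true
    · rw [if_pos (h2.2 hP), Finset.card_insert_of_notMem (by simp), h1]
      simp [hP]
    · rw [if_neg (fun h => hP (h2.1 h)), h1]
      simp [hP]

/-- counting positions -/
theorem card_positions {α : Type} (P : α → Bool) (l : List α) (Q : ℕ → Prop) [DecidablePred Q]
    (hQ : ∀ i, Q i ↔ ∃ e, l[i]? = some e ∧ P e = true) :
    (l.filter P).length = ((Finset.range l.length).filter Q).card := by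
  rw [card_positions_aux]
  congr 1
  ext i
  simp only [Finset.mem_filter, hQ]

/-- the used up hyperedges -/
noncomputable def F1 (p : ℕ × ℕ) (E : List (List ℕ × ℕ)) : Finset ℕ :=
  (Finset.range E.length).filter fun i => inD p E (Sum.inl i) = true

/-- the used up pairs -/
noncomputable def F2 (p : ℕ × ℕ) (V C : List ℕ) (E : List (List ℕ × ℕ)) : Finset (ℕ × ℕ) :=
  (V.toFinset ×ˢ C.toFinset).filter fun x => inD p E (Sum.inr x) = true

theorem mist_le (p : ℕ × ℕ) (C : List ℕ) (E : List (List ℕ × ℕ)) (hE : ∀ e ∈ E, e.2 ∈ C) :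
    mistL E (sol p C E) ≤ (F1 p E).card := by
  classical
  unfold mistL
  rw [card_positions _ _ _ fun i => Iff.rfl]
  apply Finset.card_le_card
  intro i hi
  rw [Finset.mem_filter] at hi
  obtain ⟨hi, e, he, hbad⟩ := hi
  refine Finset.mem_filter.2 ⟨hi, ?_⟩
  by_contra hD
  have hall : ∀ v ∈ e.1, e.2 ∈ sol p C E v := by
    intro v hv
    have hn : needed p E v e.2 = true := needed_iff.2 ⟨i, e, he, hv, rfl, hD⟩
    have hm : e.2 ∈ C.filter (needed p E v) :=
      List.mem_filter.2 ⟨hE e (List.mem_of_getElem? he), hn⟩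
    unfold sol
    rw [if_neg (List.ne_nil_of_mem hm)]
    exact hm
  unfold bad at hbad
  simp only [Bool.not_eq_true', List.all_eq_false, decide_eq_true_eq] at hbad
  obtain ⟨v, hv, h⟩ := hbad
  exact h (hall v hv)

theorem card_product_filter (V C : List ℕ) (hV : V.Nodup) (P : ℕ × ℕ → Prop) [DecidablePred P] :
    ((V.toFinset ×ˢ C.toFinset).filter P).card =
      (V.map fun v => (C.toFinset.filter fun c => P (v, c)).card).sum := by
  rw [← List.sum_toFinset _ hV]
  rw [Finset.card_filter, Finset.sum_product]
  apply Finset.sum_congr rfl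
  intro v _
  rw [Finset.card_filter]

theorem extra_le (p : ℕ × ℕ) (V C : List ℕ) (E : List (List ℕ × ℕ)) (hV : V.Nodup) (hC : C.Nodup) :
    extraL V (sol p C E) ≤ (F2 p V C E).card := by
  unfold extraL F2
  rw [card_product_filter V C hV]
  apply List.sum_le_sum
  intro v _
  unfold sol
  split
  · simp
  · have hnd : (C.filter (needed p E v)).Nodup := hC.filter _
    rw [← List.toFinset_card_of_nodup hnd]
    set N := (C.filter (needed p E v)).toFinset with hN
    have h1 : (N.filter fun c => ¬ inD p E (Sum.inr (v, c)) = true).card ≤ 1 := by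
      rw [Finset.card_le_one]
      intro c hc d hd
      rw [Finset.mem_filter, hN, List.mem_toFinset, List.mem_filter] at hc hd
      obtain ⟨⟨_, hc1⟩, hc2⟩ := hc
      obtain ⟨⟨_, hd1⟩, hd2⟩ := hd
      by_contra hne
      obtain ⟨i, e, he, hv, rfl, hi⟩ := needed_iff.1 hc1
      obtain ⟨j, f, hf, hv', rfl, hj⟩ := needed_iff.1 hd1
      have hk := (mem_confs (E := E)
        (k := [Sum.inl i, Sum.inl j, Sum.inr (v, e.2), Sum.inr (v, f.2)])).2
        ⟨i, j, e, f, v, he, hf, hne, hv, hv', rfl⟩
      obtain ⟨x, hx, hxD⟩ := run_hit p E hk (by simp)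
      simp only [List.mem_cons, List.not_mem_nil, or_false] at hx
      rcases hx with rfl | rfl | rfl | rfl
      · exact hi hxD
      · exact hj hxD
      · exact hc2 hxD
      · exact hd2 hxD
    have h2 : N.card = (N.filter fun c => inD p E (Sum.inr (v, c)) = true).card +
        (N.filter fun c => ¬ inD p E (Sum.inr (v, c)) = true).card :=
      (Finset.card_filter_add_card_filter_not _).symm
    have h3 : (N.filter fun c => inD p E (Sum.inr (v, c)) = true).card ≤
        (C.toFinset.filter fun c => inD p E (Sum.inr (v, c)) = true).card := by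
      apply Finset.card_le_card
      intro c hc
      rw [Finset.mem_filter, hN, List.mem_toFinset, List.mem_filter] at hc
      exact Finset.mem_filter.2 ⟨List.mem_toFinset.2 hc.1.1, hc.2⟩
    omega

/-- assignments of colours to nodes -/
def IsAsg (V C : List ℕ) (S : ℕ → List ℕ) : Prop :=
  ∀ v ∈ V, (S v).Nodup ∧ S v ≠ [] ∧ ∀ c ∈ S v, c ∈ C

theorem sol_isAsg (p : ℕ × ℕ) (V C : List ℕ) (E : List (List ℕ × ℕ)) (hC : C.Nodup) (hne : C ≠ []) :
    IsAsg V C (sol p C E) := by
  intro v _
  unfold sol
  split
  · refine ⟨by simp, by simp, ?_⟩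
    intro c hc
    rw [List.mem_singleton] at hc
    rw [hc]
    cases C with
    | nil => exact absurd rfl hne
    | cons a C => simp
  · rename_i h
    exact ⟨hC.filter _, h, fun c hc => (List.mem_filter.1 hc).1⟩

/-- the main inequality -/
theorem main_ineq (p : ℕ × ℕ) (V C : List ℕ) (E : List (List ℕ × ℕ)) (hV : V.Nodup)
    (hC : C.Nodup) (hE : ∀ e ∈ E, (∀ v ∈ e.1, v ∈ V) ∧ e.2 ∈ C) (S : ℕ → List ℕ)
    (hS : IsAsg V C S) :
    p.1 * mistL E (sol p C E) + p.2 * extraL V (sol p C E) ≤
      4 * (p.1 * mistL E S + p.2 * extraL V S) := by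
  classical
  -- the algorithm's side
  have a1 : p.1 * mistL E (sol p C E) + p.2 * extraL V (sol p C E) ≤
      ∑ x ∈ (F1 p E).disjSum (F2 p V C E), wt p x := by
    rw [Finset.sum_disjSum]
    simp only [wt, Finset.sum_const, smul_eq_mul]
    have h1 := mist_le p C E fun e he => (hE e he).2
    have h2 := extra_le p V C E hV hC
    nlinarith [Nat.mul_le_mul_left p.1 h1, Nat.mul_le_mul_left p.2 h2]
  have a2 : ∑ x ∈ (F1 p E).disjSum (F2 p V C E), wt p x ≤
      ∑ x ∈ (F1 p E).disjSum (F2 p V C E), load (run p E) x := by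
    apply Finset.sum_le_sum
    intro x hx
    have hD : inD p E x = true := by
      rcases x with i | q
      · rw [Finset.inl_mem_disjSum] at hx
        exact (Finset.mem_filter.1 hx).2
      · rw [Finset.inr_mem_disjSum] at hx
        exact (Finset.mem_filter.1 hx).2
    unfold inD at hD
    exact of_decide_eq_true hD
  have a3 := sum_load_le ((F1 p E).disjSum (F2 p V C E)) (run p E) fun k hk => by
    obtain ⟨i, j, e, f, v, _, _, _, _, _, h⟩ := mem_confs.1 (run_mem p E hk)
    rw [h]
    simp
  -- the other side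
  let G1 : Finset ℕ := (Finset.range E.length).filter fun i => ∃ e, E[i]? = some e ∧ bad S e = true
  let G2 : Finset (ℕ × ℕ) := (V.toFinset ×ˢ C.toFinset).filter fun x =>
    x.2 ∈ S x.1 ∧ x.2 ≠ (S x.1).headD 0
  have b1 : G1.card = mistL E S := by
    unfold mistL
    exact (card_positions _ _ _ fun i => Iff.rfl).symm
  have b2 : G2.card = extraL V S := by
    unfold extraL
    simp only [G2]
    rw [card_product_filter V C hV]
    congr 1
    apply List.map_congr_left
    intro v hv
    obtain ⟨h1, h2, h3⟩ := hS v hv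
    obtain ⟨a, l, hal⟩ := List.exists_cons_of_ne_nil h2
    have h4 : C.toFinset.filter (fun c => (v, c).2 ∈ S (v, c).1 ∧ (v, c).2 ≠ (S (v, c).1).headD 0) =
        l.toFinset := by
      ext c
      simp only [Finset.mem_filter, List.mem_toFinset, hal, List.headD_cons]
      rw [hal] at h1 h3
      rw [List.nodup_cons] at h1
      constructor
      · rintro ⟨_, h5, h6⟩
        rcases List.mem_cons.1 h5 with h7 | h7
        · exact absurd h7 h6
        · exact h7
      · intro h5
        exact ⟨h3 c (List.mem_cons_of_mem _ h5), List.mem_cons_of_mem _ h5,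
          fun h6 => h1.1 (h6 ▸ h5)⟩
    rw [h4, hal]
    rw [hal, List.nodup_cons] at h1
    rw [List.toFinset_card_of_nodup h1.2]
    simp
  have b3 : (List.map Prod.snd (run p E)).sum ≤ ∑ x ∈ G1.disjSum G2, load (run p E) x := by
    apply le_sum_load
    intro k hk
    obtain ⟨i, j, e, f, v, he, hf, hne, hve, hvf, hkeq⟩ := mem_confs.1 (run_mem p E hk)
    rw [hkeq]
    have hi : i < E.length := (List.getElem?_eq_some_iff.1 he).1
    have hj : j < E.length := (List.getElem?_eq_some_iff.1 hf).1
    by_cases hbe : bad S e = true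
    · exact ⟨Sum.inl i, Finset.inl_mem_disjSum.2
        (Finset.mem_filter.2 ⟨Finset.mem_range.2 hi, e, he, hbe⟩), by simp⟩
    by_cases hbf : bad S f = true
    · exact ⟨Sum.inl j, Finset.inl_mem_disjSum.2
        (Finset.mem_filter.2 ⟨Finset.mem_range.2 hj, f, hf, hbf⟩), by simp⟩
    have hge : e.2 ∈ S v := by
      unfold bad at hbe
      simp only [Bool.not_eq_true', Bool.not_eq_false, List.all_eq_true, decide_eq_true_eq] at hbe
      exact hbe v hve
    have hgf : f.2 ∈ S v := by
      unfold bad at hbf
      simp only [Bool.not_eq_true', Bool.not_eq_false, List.all_eq_true, decide_eq_true_eq] at hbf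
      exact hbf v hvf
    have hv : v ∈ V := (hE e (List.mem_of_getElem? he)).1 v hve
    by_cases h1 : e.2 = (S v).headD 0
    · refine ⟨Sum.inr (v, f.2), Finset.inr_mem_disjSum.2 (Finset.mem_filter.2 ⟨?_, hgf, ?_⟩),
        by simp⟩
      · exact Finset.mem_product.2 ⟨List.mem_toFinset.2 hv,
          List.mem_toFinset.2 (hE f (List.mem_of_getElem? hf)).2⟩
      · simp only
        intro h2
        exact hne (h1.trans h2.symm)
    · refine ⟨Sum.inr (v, e.2), Finset.inr_mem_disjSum.2 (Finset.mem_filter.2 ⟨?_, hge, h1⟩),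
        by simp⟩
      exact Finset.mem_product.2 ⟨List.mem_toFinset.2 hv,
        List.mem_toFinset.2 (hE e (List.mem_of_getElem? he)).2⟩
  have b4 : ∑ x ∈ G1.disjSum G2, load (run p E) x ≤ ∑ x ∈ G1.disjSum G2, wt p x :=
    Finset.sum_le_sum fun x _ => run_load_le p E x
  have b5 : ∑ x ∈ G1.disjSum G2, wt p x = p.1 * mistL E S + p.2 * extraL V S := by
    rw [Finset.sum_disjSum]
    simp only [wt, Finset.sum_const, smul_eq_mul, b1, b2]
    ring
  rw [b5] at b4
  have c1 := a1.trans a2
  have c2 := c1.trans a3
  have c3 := b3.trans b4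
  exact c2.trans (Nat.mul_le_mul_left 4 c3)

/-! ### Choice of the weights -/

/-- the pairs of weights that are tried -/
def cands (N : ℕ) : List (ℕ × ℕ) :=
  (List.range N).flatMap fun x => (List.range N).map fun y => (x + 1, y + 1)

/-- bound for the weights -/
def bnd (V C : List ℕ) (E : List (List ℕ × ℕ)) : ℕ :=
  4 * (V.length * C.length) + 4 * E.length + 2

/-- the better pair of weights -/
def better (V C : List ℕ) (E : List (List ℕ × ℕ)) (b : ℕ) (acc p : ℕ × ℕ) : ℕ × ℕ :=
  if extraL V (sol p C E) ≤ 8 * b ∧ mistL E (sol p C E) ≤ mistL E (sol acc C E) then p else acc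

/-- the pair of weights that is used -/
def pick (V C : List ℕ) (E : List (List ℕ × ℕ)) (b : ℕ) : ℕ × ℕ :=
  (cands (bnd V C E)).foldl (better V C E b) (0, 0)

theorem mem_cands {N : ℕ} {p : ℕ × ℕ} : p ∈ cands N ↔ (1 ≤ p.1 ∧ p.1 ≤ N) ∧ 1 ≤ p.2 ∧ p.2 ≤ N := by
  unfold cands
  rw [List.mem_flatMap]
  constructor
  · rintro ⟨x, hx, h⟩
    rw [List.mem_map] at h
    obtain ⟨y, hy, rfl⟩ := h
    rw [List.mem_range] at hx hy
    exact ⟨⟨Nat.succ_le_succ (Nat.zero_le _), hx⟩, Nat.succ_le_succ (Nat.zero_le _), hy⟩
  · rintro ⟨⟨h1, h2⟩, h3, h4⟩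
    refine ⟨p.1 - 1, List.mem_range.2 (by omega), List.mem_map.2 ⟨p.2 - 1,
      List.mem_range.2 (by omega), ?_⟩⟩
    ext <;> simp <;> omega

theorem fold_better (V C : List ℕ) (E : List (List ℕ × ℕ)) (b : ℕ) :
    ∀ (L : List (ℕ × ℕ)) (acc : ℕ × ℕ), extraL V (sol acc C E) ≤ 8 * b →
      extraL V (sol (L.foldl (better V C E b) acc) C E) ≤ 8 * b ∧
      mistL E (sol (L.foldl (better V C E b) acc) C E) ≤ mistL E (sol acc C E) ∧
      (∀ p ∈ L, extraL V (sol p C E) ≤ 8 * b →
        mistL E (sol (L.foldl (better V C E b) acc) C E) ≤ mistL E (sol p C E)) ∧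
      (L.foldl (better V C E b) acc ∈ L ∨ L.foldl (better V C E b) acc = acc)
  | [], acc, h => ⟨h, le_rfl, by simp, Or.inr rfl⟩
  | p :: L, acc, h => by
    have h1 : extraL V (sol (better V C E b acc p) C E) ≤ 8 * b := by
      unfold better
      split
      · rename_i h2; exact h2.1
      · exact h
    have h2 : mistL E (sol (better V C E b acc p) C E) ≤ mistL E (sol acc C E) := by
      unfold better
      split
      · rename_i h2; exact h2.2
      · exact le_rfl
    have h3 : extraL V (sol p C E) ≤ 8 * b →
        mistL E (sol (better V C E b acc p) C E) ≤ mistL E (sol p C E) := by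
      intro h3
      unfold better
      split
      · exact le_rfl
      · rename_i h4
        rw [not_and_or] at h4
        rcases h4 with h4 | h4
        · exact absurd h3 h4
        · exact (not_le.1 h4).le
    have h4 : better V C E b acc p = p ∨ better V C E b acc p = acc := by
      unfold better
      split
      · exact Or.inl rfl
      · exact Or.inr rfl
    obtain ⟨a1, a2, a3, a4⟩ := fold_better V C E b L (better V C E b acc p) h1
    rw [List.foldl_cons]
    refine ⟨a1, a2.trans h2, ?_, ?_⟩
    · intro p' hp' hf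
      rcases List.mem_cons.1 hp' with rfl | hp'
      · exact a2.trans (h3 hf)
      · exact a3 p' hp' hf
    · rcases a4 with a4 | a4
      · exact Or.inl (List.mem_cons_of_mem _ a4)
      · rcases h4 with h4 | h4
        · rw [a4, h4]; exact Or.inl List.mem_cons_self
        · rw [a4, h4]; exact Or.inr rfl

theorem extra_zero (V C : List ℕ) (E : List (List ℕ × ℕ)) : extraL V (sol (0, 0) C E) = 0 := by
  have h : ∀ v, sol (0, 0) C E v = [C.headD 0] := by
    intro v
    unfold sol
    rw [if_pos]
    rw [List.filter_eq_nil_iff]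
    intro c _ hn
    obtain ⟨i, e, _, _, _, h⟩ := needed_iff.1 hn
    apply h
    unfold inD
    exact decide_eq_true (by simp [wt])
  unfold extraL
  simp [h]

theorem extra_bound (V C : List ℕ) (S : ℕ → List ℕ) (hS : IsAsg V C S) :
    extraL V S ≤ V.length * C.length := by
  unfold extraL
  have h := List.sum_le_card_nsmul (V.map fun v => (S v).length - 1) C.length (by
    intro x hx
    obtain ⟨v, hv, rfl⟩ := List.mem_map.1 hx
    obtain ⟨h1, _, h3⟩ := hS v hv
    have : (S v).length ≤ C.length := by
      rw [← List.toFinset_card_of_nodup h1]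
      refine le_trans (Finset.card_le_card (t := C.toFinset) ?_) (List.toFinset_card_le _)
      intro c hc
      exact List.mem_toFinset.2 (h3 c (List.mem_toFinset.1 hc))
    omega)
  rwa [List.length_map, smul_eq_mul] at h

theorem approx (V C : List ℕ) (E : List (List ℕ × ℕ)) (b : ℕ) (hV : V.Nodup)
    (hC : C.Nodup) (hE : ∀ e ∈ E, (∀ v ∈ e.1, v ∈ V) ∧ e.2 ∈ C) :
    extraL V (sol (pick V C E b) C E) ≤ 8 * b ∧
    ∀ S, IsAsg V C S → extraL V S ≤ b →
      mistL E (sol (pick V C E b) C E) ≤ 8 * mistL E S := by
  obtain ⟨a1, _, a3, _⟩ := fold_better V C E b (cands (bnd V C E)) (0, 0) (by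
    rw [extra_zero]; exact Nat.zero_le _)
  refine ⟨a1, fun S hS hb => ?_⟩
  have hc := extra_bound V C S hS
  have hm : mistL E S ≤ E.length := List.length_filter_le _ _
  have main := fun p => main_ineq p V C E hV hC hE S hS
  set P := V.length * C.length with hP
  set m := mistL E S with hmdef
  set c := extraL V S with hcdef
  have key : ∃ p ∈ cands (bnd V C E), extraL V (sol p C E) ≤ 8 * b ∧
      mistL E (sol p C E) ≤ 8 * m := by
    rcases Nat.eq_zero_or_pos m with h0 | h0
    · refine ⟨(4 * P + 1, 1), mem_cands.2 ?_, ?_⟩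
      · unfold bnd
        rw [← hP]
        simp only
        omega
      · have h := main (4 * P + 1, 1)
        simp only [h0, one_mul, mul_zero, zero_add] at h
        have h1 : mistL E (sol (4 * P + 1, 1) C E) = 0 := by
          by_contra h2
          have h3 : 1 ≤ mistL E (sol (4 * P + 1, 1) C E) := Nat.one_le_iff_ne_zero.2 h2
          have h4 := Nat.mul_le_mul_left (4 * P + 1) h3
          omega
        rw [h1] at h ⊢
        omega
    · rcases Nat.eq_zero_or_pos c with h1 | h1
      · refine ⟨(1, 4 * E.length + 1), mem_cands.2 ?_, ?_⟩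
        · unfold bnd
          simp only
          omega
        · have h := main (1, 4 * E.length + 1)
          simp only [h1, one_mul, mul_zero, add_zero] at h
          have h2 : extraL V (sol (1, 4 * E.length + 1) C E) = 0 := by
            by_contra h2
            have h3 : 1 ≤ extraL V (sol (1, 4 * E.length + 1) C E) := Nat.one_le_iff_ne_zero.2 h2
            have h4 := Nat.mul_le_mul_left (4 * E.length + 1) h3
            omega
          rw [h2] at h ⊢
          omega
      · refine ⟨(c, m), mem_cands.2 ?_, ?_⟩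
        · unfold bnd
          rw [← hP]
          simp only
          omega
        · have h := main (c, m)
          simp only at h
          have e1 : 4 * (c * m + m * c) = c * (8 * m) := by ring
          have e2 : 4 * (c * m + m * c) = m * (8 * c) := by ring
          constructor
          · have h2 : m * extraL V (sol (c, m) C E) ≤ m * (8 * c) := by
              rw [← e2]; omega
            have := Nat.le_of_mul_le_mul_left h2 h0
            omega
          · have h2 : c * mistL E (sol (c, m) C E) ≤ c * (8 * m) := by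
              rw [← e1]; omega
            exact Nat.le_of_mul_le_mul_left h2 h1
  obtain ⟨p, hp, h1, h2⟩ := key
  exact (a3 p hp h1).trans h2

end Pool.Agent.V5helper69.ECC
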