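import Mathlib
import Pool.Agent.V5helper69.ECC.Alg
import Pool.Agent.NPC.Dec

/-!
# The algorithm runs in polynomial time
-/

set_option autoImplicit false

namespace Pool.Agent.V5helper69.ECC

open Pool.Agent.NPC

variable {α : Type} [TEnc α]

theorem mem_item {f : α → Item} {l : α → List Item} (hf : NPC.Poly f) (hl : NPC.Poly l) :
    NPC.Poly (fun a => decide (f a ∈ l a)) :=
  (NPC.Poly.decide_mem hf hl).congr fun _ => decide_eq_decide.2 Iff.rfl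

theorem poly_wt : NPC.Poly (fun a : (ℕ × ℕ) × Item => wt a.1 a.2) := by
  refine (NPC.Poly.sumCases (o := fun a : (ℕ × ℕ) × Item => a.2) (g := fun a _ => a.1.1)
    (h := fun a _ => a.1.2) (NPC.Poly.snd NPC.Poly.id) (NPC.Poly.fst (NPC.Poly.fst (NPC.Poly.fst NPC.Poly.id)))
    (NPC.Poly.snd (NPC.Poly.fst (NPC.Poly.fst NPC.Poly.id)))).congr ?_
  rintro ⟨p, x | x⟩ <;> rfl

theorem poly_load : NPC.Poly (fun a : List (List Item × ℕ) × Item => load a.1 a.2) := by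
  unfold load
  refine NPC.Poly.sum (NPC.Poly.map (F := fun _ (k : List Item × ℕ) => k.2) (NPC.Poly.filter
    (p := fun (a : List (List Item × ℕ) × Item) (k : List Item × ℕ) => decide (a.2 ∈ k.1))
    (NPC.Poly.fst NPC.Poly.id) (mem_item (NPC.Poly.snd (NPC.Poly.fst NPC.Poly.id)) (NPC.Poly.fst (NPC.Poly.snd NPC.Poly.id))))
    (NPC.Poly.snd (NPC.Poly.snd NPC.Poly.id)))

theorem minL_le_self (d : ℕ) (l : List ℕ) : minL d l ≤ d := by
  induction l with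
  | nil => exact le_rfl
  | cons a l ih => exact le_trans (min_le_right _ _) ih

theorem poly_minL : NPC.Poly (fun a : ℕ × List ℕ => minL a.1 a.2) := by
  unfold minL
  refine NPC.Poly.foldr (l := fun a : ℕ × List ℕ => a.2) (s := fun a => a.1)
    (F := fun _ x y => min x y) (NPC.Poly.snd NPC.Poly.id) (NPC.Poly.fst NPC.Poly.id)
    (NPC.Poly.min (NPC.Poly.fst (NPC.Poly.snd NPC.Poly.id)) (NPC.Poly.snd (NPC.Poly.snd NPC.Poly.id)))
    (Polynomial.C 2 * Polynomial.X) ?_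
  intro a k _
  have h1 : List.foldr (fun x y => min x y) a.1 (List.drop k a.2) ≤ a.1 :=
    minL_le_self a.1 (List.drop k a.2)
  have h2 := sz_nat_mono_le h1
  have h3 : sz a = sz a.1 + sz a.2 + 1 := sz_pair a.1 a.2
  simp only [Polynomial.eval_mul, Polynomial.eval_C, Polynomial.eval_X]
  omega

theorem poly_step : NPC.Poly (fun a : (ℕ × ℕ) × List (List Item × ℕ) × List Item =>
    step a.1 a.2.1 a.2.2) := by
  unfold step
  refine NPC.Poly.cons (NPC.Poly.pair (NPC.Poly.snd (NPC.Poly.snd NPC.Poly.id)) ?_) (NPC.Poly.fst (NPC.Poly.snd NPC.Poly.id))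
  refine poly_minL.comp (NPC.Poly.pair (NPC.Poly.add (NPC.Poly.fst (NPC.Poly.fst NPC.Poly.id))
    (NPC.Poly.snd (NPC.Poly.fst NPC.Poly.id))) ?_)
  refine NPC.Poly.map (F := fun (a : (ℕ × ℕ) × List (List Item × ℕ) × List Item) x =>
    wt a.1 x - load a.2.1 x) (NPC.Poly.snd (NPC.Poly.snd NPC.Poly.id)) ?_
  have h1 : NPC.Poly (fun q : ((ℕ × ℕ) × List (List Item × ℕ) × List Item) × Item =>
      ((q.1.1, q.2) : (ℕ × ℕ) × Item)) :=
    NPC.Poly.pair (NPC.Poly.fst (NPC.Poly.fst NPC.Poly.id)) (NPC.Poly.snd NPC.Poly.id)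
  have h2 : NPC.Poly (fun q : ((ℕ × ℕ) × List (List Item × ℕ) × List Item) × Item =>
      ((q.1.2.1, q.2) : List (List Item × ℕ) × Item)) :=
    NPC.Poly.pair (NPC.Poly.fst (NPC.Poly.snd (NPC.Poly.fst NPC.Poly.id))) (NPC.Poly.snd NPC.Poly.id)
  have h3 := poly_wt.comp h1
  have h4 := poly_load.comp h2
  exact NPC.Poly.sub h3 h4

theorem poly_conf2 : NPC.Poly (fun a : ((List ℕ × ℕ) × ℕ) × ((List ℕ × ℕ) × ℕ) => conf2 a.1 a.2) := by
  unfold conf2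
  refine NPC.Poly.ite (NPC.Poly.decide_eq (NPC.Poly.snd (NPC.Poly.fst (NPC.Poly.fst NPC.Poly.id)))
    (NPC.Poly.snd (NPC.Poly.fst (NPC.Poly.snd NPC.Poly.id)))) (NPC.Poly.const _) ?_
  refine NPC.Poly.map (F := fun (a : ((List ℕ × ℕ) × ℕ) × ((List ℕ × ℕ) × ℕ)) (v : ℕ) =>
    ([Sum.inl a.1.2, Sum.inl a.2.2, Sum.inr (v, a.1.1.2), Sum.inr (v, a.2.1.2)] : List Item)) ?_ ?_
  · exact NPC.Poly.filter (p := fun (a : ((List ℕ × ℕ) × ℕ) × ((List ℕ × ℕ) × ℕ)) (v : ℕ) =>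
      decide (v ∈ a.2.1.1)) (NPC.Poly.fst (NPC.Poly.fst (NPC.Poly.fst NPC.Poly.id)))
      (NPC.Poly.decide_mem (NPC.Poly.snd NPC.Poly.id) (NPC.Poly.fst (NPC.Poly.fst (NPC.Poly.snd (NPC.Poly.fst NPC.Poly.id)))))
  · refine NPC.Poly.cons (NPC.Poly.inl (NPC.Poly.snd (NPC.Poly.fst (NPC.Poly.fst NPC.Poly.id)))) (NPC.Poly.cons
      (NPC.Poly.inl (NPC.Poly.snd (NPC.Poly.snd (NPC.Poly.fst NPC.Poly.id)))) (NPC.Poly.cons (NPC.Poly.inr
        (NPC.Poly.pair (NPC.Poly.snd NPC.Poly.id) (NPC.Poly.snd (NPC.Poly.fst (NPC.Poly.fst (NPC.Poly.fst NPC.Poly.id))))))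
        (NPC.Poly.cons (NPC.Poly.inr (NPC.Poly.pair (NPC.Poly.snd NPC.Poly.id)
          (NPC.Poly.snd (NPC.Poly.fst (NPC.Poly.snd (NPC.Poly.fst NPC.Poly.id)))))) (NPC.Poly.const []))))

theorem poly_confs : NPC.Poly (fun E : List (List ℕ × ℕ) => confs E) := by
  unfold confs
  refine NPC.Poly.flatMap (F := fun (E : List (List ℕ × ℕ)) (e : (List ℕ × ℕ) × ℕ) =>
    E.zipIdx.flatMap fun f => conf2 e f) (NPC.Poly.zipIdx NPC.Poly.id) ?_
  refine NPC.Poly.flatMap (F := fun (p : List (List ℕ × ℕ) × ((List ℕ × ℕ) × ℕ))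
    (f : (List ℕ × ℕ) × ℕ) => conf2 p.2 f) (NPC.Poly.zipIdx (NPC.Poly.fst NPC.Poly.id)) ?_
  exact poly_conf2.comp (NPC.Poly.pair (NPC.Poly.snd (NPC.Poly.fst NPC.Poly.id)) (NPC.Poly.snd NPC.Poly.id))

theorem length_foldl_step (p : ℕ × ℕ) : ∀ (L : List (List Item)) (s : List (List Item × ℕ)),
    (L.foldl (step p) s).length = L.length + s.length
  | [], s => by simp
  | k :: L, s => by
    rw [List.foldl_cons, length_foldl_step p L]
    simp [step]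
    omega

theorem mem_foldl_step (p : ℕ × ℕ) : ∀ (L : List (List Item)) (s : List (List Item × ℕ)),
    ∀ k ∈ L.foldl (step p) s, (k.1 ∈ L ∧ k.2 ≤ p.1 + p.2) ∨ k ∈ s
  | [], s, k, hk => Or.inr hk
  | k' :: L, s, k, hk => by
    rw [List.foldl_cons] at hk
    rcases mem_foldl_step p L _ k hk with h | h
    · exact Or.inl ⟨List.mem_cons_of_mem _ h.1, h.2⟩
    · unfold step at h
      rcases List.mem_cons.1 h with rfl | h
      · exact Or.inl ⟨List.mem_cons_self, minL_le_self _ _⟩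
      · exact Or.inr h

theorem poly_run : NPC.Poly (fun a : (ℕ × ℕ) × List (List ℕ × ℕ) => run a.1 a.2) := by
  unfold run
  have hc : NPC.Poly (fun a : (ℕ × ℕ) × List (List ℕ × ℕ) => confs a.2) :=
    poly_confs.comp (NPC.Poly.snd NPC.Poly.id)
  obtain ⟨r, hr⟩ := hc.sz_le
  have hs : NPC.Poly (fun a : (ℕ × ℕ) × List (List ℕ × ℕ) => a.1.1 + a.1.2) :=
    NPC.Poly.add (NPC.Poly.fst (NPC.Poly.fst NPC.Poly.id)) (NPC.Poly.snd (NPC.Poly.fst NPC.Poly.id))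
  obtain ⟨t, ht⟩ := hs.sz_le
  refine NPC.Poly.foldl (l := fun a : (ℕ × ℕ) × List (List ℕ × ℕ) => confs a.2)
    (s := fun _ => ([] : List (List Item × ℕ))) (F := fun a s k => step a.1 s k) hc (NPC.Poly.const _)
    (poly_step.comp (NPC.Poly.pair (NPC.Poly.fst (NPC.Poly.fst NPC.Poly.id)) (NPC.Poly.pair (NPC.Poly.fst (NPC.Poly.snd NPC.Poly.id))
      (NPC.Poly.snd (NPC.Poly.snd NPC.Poly.id))))) (r * (r + Polynomial.C 2 * t + Polynomial.C 2)
        + Polynomial.C 1) ?_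
  intro a k hk
  have h1 := sz_le_length_mul (((confs a.2).take k).foldl (step a.1) []) (r.eval (sz a) +
    2 * t.eval (sz a) + 1) (by
      intro x hx
      rcases mem_foldl_step a.1 _ _ x hx with h | h
      · have h2 := sz_le_of_mem (List.mem_of_mem_take h.1)
        have h3 := hr a
        have h4 := sz_nat_mono_le h.2
        have h5 := ht a
        have h6 : sz x = sz x.1 + sz x.2 + 1 := sz_pair x.1 x.2
        omega
      · simp at h)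
  rw [length_foldl_step] at h1
  have h7 : ((confs a.2).take k).length + ([] : List (List Item × ℕ)).length ≤ r.eval (sz a) := by
    have h8 := length_lt_sz (confs a.2)
    have h9 := hr a
    simp only [List.length_nil, List.length_take, add_zero]
    omega
  simp only [Polynomial.eval_add, Polynomial.eval_mul, Polynomial.eval_C]
  refine h1.trans (Nat.add_le_add_right (Nat.mul_le_mul h7 ?_) 1)
  omega

theorem poly_inD : NPC.Poly (fun a : (ℕ × ℕ) × List (List ℕ × ℕ) × Item => inD a.1 a.2.1 a.2.2) := by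
  have g1 : NPC.Poly (fun a : (ℕ × ℕ) × List (List ℕ × ℕ) × Item => a.1) := NPC.Poly.fst NPC.Poly.id
  have g2 : NPC.Poly (fun a : (ℕ × ℕ) × List (List ℕ × ℕ) × Item => a.2.1) :=
    NPC.Poly.fst (NPC.Poly.snd NPC.Poly.id)
  have g3 : NPC.Poly (fun a : (ℕ × ℕ) × List (List ℕ × ℕ) × Item => a.2.2) :=
    NPC.Poly.snd (NPC.Poly.snd NPC.Poly.id)
  have h1 : NPC.Poly (fun a : (ℕ × ℕ) × List (List ℕ × ℕ) × Item => ((a.1, a.2.2) : (ℕ × ℕ) × Item)) :=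
    NPC.Poly.pair g1 g3
  have h2 : NPC.Poly (fun a : (ℕ × ℕ) × List (List ℕ × ℕ) × Item =>
      ((a.1, a.2.1) : (ℕ × ℕ) × List (List ℕ × ℕ))) := NPC.Poly.pair g1 g2
  have h3 : NPC.Poly (fun a : (ℕ × ℕ) × List (List ℕ × ℕ) × Item => run a.1 a.2.1) :=
    poly_run.comp h2
  have h4 : NPC.Poly (fun a : (ℕ × ℕ) × List (List ℕ × ℕ) × Item =>
      ((run a.1 a.2.1, a.2.2) : List (List Item × ℕ) × Item)) := NPC.Poly.pair h3 g3
  have h5 : NPC.Poly (fun a : (ℕ × ℕ) × List (List ℕ × ℕ) × Item => load (run a.1 a.2.1) a.2.2) :=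
    poly_load.comp h4
  have h6 : NPC.Poly (fun a : (ℕ × ℕ) × List (List ℕ × ℕ) × Item => wt a.1 a.2.2) :=
    poly_wt.comp h1
  unfold inD
  exact NPC.Poly.decide_le h6 h5

theorem poly_needed : NPC.Poly (fun a : ((ℕ × ℕ) × List (List ℕ × ℕ)) × ℕ × ℕ =>
    needed a.1.1 a.1.2 a.2.1 a.2.2) := by
  unfold needed
  have h1 : NPC.Poly (fun q : ((((ℕ × ℕ) × List (List ℕ × ℕ)) × ℕ × ℕ) × ((List ℕ × ℕ) × ℕ)) =>
      decide (q.1.2.1 ∈ q.2.1.1)) :=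
    NPC.Poly.decide_mem (f := fun q : ((((ℕ × ℕ) × List (List ℕ × ℕ)) × ℕ × ℕ) ×
      ((List ℕ × ℕ) × ℕ)) => q.1.2.1) (l := fun q => q.2.1.1)
      (NPC.Poly.fst (NPC.Poly.snd (NPC.Poly.fst NPC.Poly.id)))
      (NPC.Poly.fst (NPC.Poly.fst (NPC.Poly.snd NPC.Poly.id)))
  have h2 : NPC.Poly (fun q : ((((ℕ × ℕ) × List (List ℕ × ℕ)) × ℕ × ℕ) × ((List ℕ × ℕ) × ℕ)) =>
      decide (q.2.1.2 = q.1.2.2)) :=
    NPC.Poly.decide_eq (f := fun q : ((((ℕ × ℕ) × List (List ℕ × ℕ)) × ℕ × ℕ) ×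
      ((List ℕ × ℕ) × ℕ)) => q.2.1.2) (g := fun q => q.1.2.2)
      (NPC.Poly.snd (NPC.Poly.fst (NPC.Poly.snd NPC.Poly.id)))
      (NPC.Poly.snd (NPC.Poly.snd (NPC.Poly.fst NPC.Poly.id)))
  have h3 : NPC.Poly (fun q : ((((ℕ × ℕ) × List (List ℕ × ℕ)) × ℕ × ℕ) × ((List ℕ × ℕ) × ℕ)) =>
      ((q.1.1.1, q.1.1.2, Sum.inl q.2.2) : (ℕ × ℕ) × List (List ℕ × ℕ) × Item)) :=
    NPC.Poly.pair (NPC.Poly.fst (NPC.Poly.fst (NPC.Poly.fst NPC.Poly.id)))
      (NPC.Poly.pair (NPC.Poly.snd (NPC.Poly.fst (NPC.Poly.fst NPC.Poly.id)))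
      (NPC.Poly.inl (NPC.Poly.snd (NPC.Poly.snd NPC.Poly.id))))
  have h4 := NPC.Poly.not (poly_inD.comp h3)
  have h5 := NPC.Poly.and h1 (NPC.Poly.and h2 h4)
  have h6 : NPC.Poly (fun a : ((ℕ × ℕ) × List (List ℕ × ℕ)) × ℕ × ℕ => a.1.2.zipIdx) :=
    NPC.Poly.zipIdx (NPC.Poly.snd (NPC.Poly.fst NPC.Poly.id))
  exact NPC.Poly.any (p := fun (a : ((ℕ × ℕ) × List (List ℕ × ℕ)) × ℕ × ℕ)
    (e : (List ℕ × ℕ) × ℕ) => decide (a.2.1 ∈ e.1.1) && (decide (e.1.2 = a.2.2) &&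
      !(inD a.1.1 a.1.2 (Sum.inl e.2)))) h6 h5

theorem poly_headD : NPC.Poly (fun C : List ℕ => C.headD 0) := by
  refine (NPC.Poly.listCases (l := fun C : List ℕ => C) (g := fun _ => (0 : ℕ)) (h := fun _ b _ => b)
    NPC.Poly.id (NPC.Poly.const _) (NPC.Poly.fst (NPC.Poly.snd NPC.Poly.id))).congr ?_
  intro C
  cases C <;> rfl

theorem poly_sol : NPC.Poly (fun a : (ℕ × ℕ) × List ℕ × List (List ℕ × ℕ) × ℕ =>
    sol a.1 a.2.1 a.2.2.1 a.2.2.2) := by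
  unfold sol
  have h : NPC.Poly (fun a : (ℕ × ℕ) × List ℕ × List (List ℕ × ℕ) × ℕ =>
      a.2.1.filter (needed a.1 a.2.2.1 a.2.2.2)) := by
    refine NPC.Poly.filter (p := fun (a : (ℕ × ℕ) × List ℕ × List (List ℕ × ℕ) × ℕ) (c : ℕ) =>
      needed a.1 a.2.2.1 a.2.2.2 c) (NPC.Poly.fst (NPC.Poly.snd NPC.Poly.id)) ?_
    exact poly_needed.comp (NPC.Poly.pair (NPC.Poly.pair (NPC.Poly.fst (NPC.Poly.fst NPC.Poly.id))
      (NPC.Poly.fst (NPC.Poly.snd (NPC.Poly.snd (NPC.Poly.fst NPC.Poly.id)))))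
      (NPC.Poly.pair (NPC.Poly.snd (NPC.Poly.snd (NPC.Poly.snd (NPC.Poly.fst NPC.Poly.id)))) (NPC.Poly.snd NPC.Poly.id)))
  exact NPC.Poly.ite (NPC.Poly.decide_eq h (NPC.Poly.const [])) (NPC.Poly.cons (poly_headD.comp
    (NPC.Poly.fst (NPC.Poly.snd NPC.Poly.id))) (NPC.Poly.const [])) h

/-- the data: nodes, colours, hyperedges -/
abbrev Dat := List ℕ × List ℕ × List (List ℕ × ℕ)

theorem poly_extra : NPC.Poly (fun a : (ℕ × ℕ) × Dat => extraL a.2.1 (sol a.1 a.2.2.1 a.2.2.2)) := by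
  unfold extraL
  refine NPC.Poly.sum (NPC.Poly.map (F := fun (a : (ℕ × ℕ) × Dat) (v : ℕ) =>
    (sol a.1 a.2.2.1 a.2.2.2 v).length - 1) (NPC.Poly.fst (NPC.Poly.snd NPC.Poly.id)) ?_)
  refine NPC.Poly.sub (NPC.Poly.length ?_) (NPC.Poly.const 1)
  exact poly_sol.comp (NPC.Poly.pair (NPC.Poly.fst (NPC.Poly.fst NPC.Poly.id)) (NPC.Poly.pair
    (NPC.Poly.fst (NPC.Poly.snd (NPC.Poly.snd (NPC.Poly.fst NPC.Poly.id)))) (NPC.Poly.pair
      (NPC.Poly.snd (NPC.Poly.snd (NPC.Poly.snd (NPC.Poly.fst NPC.Poly.id)))) (NPC.Poly.snd NPC.Poly.id))))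

theorem poly_mist : NPC.Poly (fun a : (ℕ × ℕ) × Dat => mistL a.2.2.2 (sol a.1 a.2.2.1 a.2.2.2)) := by
  unfold mistL bad
  refine NPC.Poly.length (NPC.Poly.filter (p := fun (a : (ℕ × ℕ) × Dat) (e : List ℕ × ℕ) =>
    !(e.1.all fun v => decide (e.2 ∈ sol a.1 a.2.2.1 a.2.2.2 v)))
    (NPC.Poly.snd (NPC.Poly.snd (NPC.Poly.snd NPC.Poly.id))) ?_)
  refine NPC.Poly.not (NPC.Poly.all (p := fun (x : ((ℕ × ℕ) × Dat) × (List ℕ × ℕ)) (v : ℕ) =>
    decide (x.2.2 ∈ sol x.1.1 x.1.2.2.1 x.1.2.2.2 v)) (NPC.Poly.fst (NPC.Poly.snd NPC.Poly.id)) ?_)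
  refine NPC.Poly.decide_mem (NPC.Poly.snd (NPC.Poly.snd (NPC.Poly.fst NPC.Poly.id))) ?_
  exact poly_sol.comp (NPC.Poly.pair (NPC.Poly.fst (NPC.Poly.fst (NPC.Poly.fst NPC.Poly.id))) (NPC.Poly.pair
    (NPC.Poly.fst (NPC.Poly.snd (NPC.Poly.snd (NPC.Poly.fst (NPC.Poly.fst NPC.Poly.id))))) (NPC.Poly.pair
      (NPC.Poly.snd (NPC.Poly.snd (NPC.Poly.snd (NPC.Poly.fst (NPC.Poly.fst NPC.Poly.id))))) (NPC.Poly.snd NPC.Poly.id))))

theorem upoly_bnd : UPoly (fun a : Dat => bnd a.1 a.2.1 a.2.2) := by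
  unfold bnd
  exact UPoly.add (UPoly.add (UPoly.mul (UPoly.const 4) (UPoly.mul
    (UPoly.length (NPC.Poly.fst NPC.Poly.id)) (UPoly.length (NPC.Poly.fst (NPC.Poly.snd NPC.Poly.id)))))
    (UPoly.mul (UPoly.const 4) (UPoly.length (NPC.Poly.snd (NPC.Poly.snd NPC.Poly.id))))) (UPoly.const 2)

theorem poly_cands : NPC.Poly (fun a : Dat => cands (bnd a.1 a.2.1 a.2.2)) := by
  unfold cands
  have hr : NPC.Poly (fun a : Dat => List.range (bnd a.1 a.2.1 a.2.2)) := UPoly.range upoly_bnd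
  refine NPC.Poly.flatMap (F := fun (a : Dat) (x : ℕ) => (List.range (bnd a.1 a.2.1 a.2.2)).map
    fun y => (x + 1, y + 1)) hr ?_
  refine NPC.Poly.map (F := fun (p : Dat × ℕ) (y : ℕ) => (p.2 + 1, y + 1)) (hr.comp (NPC.Poly.fst NPC.Poly.id)) ?_
  exact NPC.Poly.pair (NPC.Poly.succ (NPC.Poly.snd (NPC.Poly.fst NPC.Poly.id))) (NPC.Poly.succ (NPC.Poly.snd NPC.Poly.id))

theorem poly_better : NPC.Poly (fun a : (Dat × ℕ) × (ℕ × ℕ) × (ℕ × ℕ) =>
    better a.1.1.1 a.1.1.2.1 a.1.1.2.2 a.1.2 a.2.1 a.2.2) := by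
  unfold better
  let Q := (Dat × ℕ) × (ℕ × ℕ) × (ℕ × ℕ)
  have g1 : NPC.Poly (fun q : Q => q.1) := NPC.Poly.fst NPC.Poly.id
  have g2 : NPC.Poly (fun q : Q => q.2.1) := NPC.Poly.fst (NPC.Poly.snd NPC.Poly.id)
  have g3 : NPC.Poly (fun q : Q => q.2.2) := NPC.Poly.snd (NPC.Poly.snd NPC.Poly.id)
  have hp : NPC.Poly (fun q : Q => ((q.2.2, q.1.1) : (ℕ × ℕ) × Dat)) :=
    NPC.Poly.pair g3 (NPC.Poly.fst g1)
  have hacc : NPC.Poly (fun q : Q => ((q.2.1, q.1.1) : (ℕ × ℕ) × Dat)) :=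
    NPC.Poly.pair g2 (NPC.Poly.fst g1)
  have h8 : NPC.Poly (fun q : Q => 8 * q.1.2) :=
    NPC.Poly.mul (NPC.Poly.const 8) (NPC.Poly.snd g1)
  have e1 := poly_extra.comp hp
  have e2 := poly_mist.comp hp
  have e3 := poly_mist.comp hacc
  have d1 := NPC.Poly.decide_le e1 h8
  have d2 := NPC.Poly.decide_le e2 e3
  exact NPC.Poly.ite (NPC.Poly.decide_and d1 d2) g3 g2

theorem foldl_better_mem (V C : List ℕ) (E : List (List ℕ × ℕ)) (b : ℕ) :
    ∀ (L : List (ℕ × ℕ)) (acc : ℕ × ℕ),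
      L.foldl (better V C E b) acc ∈ L ∨ L.foldl (better V C E b) acc = acc
  | [], acc => Or.inr rfl
  | p :: L, acc => by
    rw [List.foldl_cons]
    have h4 : better V C E b acc p = p ∨ better V C E b acc p = acc := by
      unfold better
      split
      · exact Or.inl rfl
      · exact Or.inr rfl
    rcases foldl_better_mem V C E b L (better V C E b acc p) with h | h
    · exact Or.inl (List.mem_cons_of_mem _ h)
    · rcases h4 with h4 | h4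
      · rw [h, h4]; exact Or.inl List.mem_cons_self
      · rw [h, h4]; exact Or.inr rfl

theorem poly_pick : NPC.Poly (fun a : Dat × ℕ => pick a.1.1 a.1.2.1 a.1.2.2 a.2) := by
  unfold pick
  have hc : NPC.Poly (fun a : Dat × ℕ => cands (bnd a.1.1 a.1.2.1 a.1.2.2)) :=
    poly_cands.comp (NPC.Poly.fst NPC.Poly.id)
  obtain ⟨r, hr⟩ := hc.sz_le
  refine NPC.Poly.foldl (l := fun a : Dat × ℕ => cands (bnd a.1.1 a.1.2.1 a.1.2.2))
    (s := fun _ => ((0, 0) : ℕ × ℕ)) (F := fun a acc p => better a.1.1 a.1.2.1 a.1.2.2 a.2 acc p)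
    hc (NPC.Poly.const _) poly_better (r + Polynomial.C (sz ((0, 0) : ℕ × ℕ))) ?_
  intro a k _
  simp only [Polynomial.eval_add, Polynomial.eval_C]
  rcases foldl_better_mem a.1.1 a.1.2.1 a.1.2.2 a.2
    ((cands (bnd a.1.1 a.1.2.1 a.1.2.2)).take k) (0, 0) with h | h
  · have h1 := sz_le_of_mem (List.mem_of_mem_take h)
    have h2 := hr a
    exact le_trans h1.le (le_trans h2 (Nat.le_add_right _ _))
  · have h2 : sz (List.foldl (fun acc p => better a.1.1 a.1.2.1 a.1.2.2 a.2 acc p) (0, 0)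
        (List.take k (cands (bnd a.1.1 a.1.2.1 a.1.2.2)))) = sz ((0, 0) : ℕ × ℕ) :=
      congrArg sz h
    rw [h2]
    exact Nat.le_add_left _ _

/-- the output -/
def out (a : Dat × ℕ) : List (List ℕ) :=
  a.1.1.map (sol (pick a.1.1 a.1.2.1 a.1.2.2 a.2) a.1.2.1 a.1.2.2)

theorem poly_out : NPC.Poly out := by
  unfold out
  refine NPC.Poly.map (F := fun (a : Dat × ℕ) (v : ℕ) =>
    sol (pick a.1.1 a.1.2.1 a.1.2.2 a.2) a.1.2.1 a.1.2.2 v) (NPC.Poly.fst (NPC.Poly.fst NPC.Poly.id)) ?_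
  exact poly_sol.comp (NPC.Poly.pair (poly_pick.comp (NPC.Poly.fst NPC.Poly.id)) (NPC.Poly.pair
    (NPC.Poly.fst (NPC.Poly.snd (NPC.Poly.fst (NPC.Poly.fst NPC.Poly.id)))) (NPC.Poly.pair
      (NPC.Poly.snd (NPC.Poly.snd (NPC.Poly.fst (NPC.Poly.fst NPC.Poly.id)))) (NPC.Poly.snd NPC.Poly.id))))

/-- rearrangement of the input -/
theorem poly_arrange : NPC.Poly (fun q : List ℕ × List ℕ × List (List ℕ × ℕ) × ℕ =>
    (((q.1, q.2.1, q.2.2.1), q.2.2.2) : Dat × ℕ)) := by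
  let Q := List ℕ × List ℕ × List (List ℕ × ℕ) × ℕ
  have g1 : NPC.Poly (fun q : Q => q.1) := NPC.Poly.fst NPC.Poly.id
  have g2 : NPC.Poly (fun q : Q => q.2) := NPC.Poly.snd NPC.Poly.id
  exact NPC.Poly.pair (NPC.Poly.pair g1 (NPC.Poly.pair (NPC.Poly.fst g2)
    (NPC.Poly.fst (NPC.Poly.snd g2)))) (NPC.Poly.snd (NPC.Poly.snd g2))

/-- the data as given -/
abbrev Inp := List ℕ × List ℕ × List (List ℕ × ℕ) × ℕ

/-- the output, from the input as given -/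
def out' (q : Inp) : List (List ℕ) := out ((q.1, q.2.1, q.2.2.1), q.2.2.2)

theorem poly_out' : NPC.Poly out' := poly_out.comp poly_arrange

theorem poly_out'2 : NPC.Poly (fun p : List Bool × Inp => out' p.2) :=
  NPC.Poly.comp (g := out') (f := fun p : List Bool × Inp => p.2) poly_out' (NPC.Poly.snd NPC.Poly.id)

/-- the algorithm on bit strings -/
theorem exists_algorithm : ∃ A : List Bool → List Bool, PolyTime A ∧
    ∀ (V C : List ℕ) (E : List (List ℕ × ℕ)) (b : ℕ),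
      A (bits (V, C, E, b)) = bits (V.map (sol (pick V C E b) C E)) := by
  have h : NPC.Poly (fun x : List Bool => (unbits Inp x).map out') :=
    NPC.Poly.optMap (f := fun _ q => out' q) poly_unbits poly_out'2
  refine ⟨_, polyTime_opt h, fun V C E b => ?_⟩
  have e : (unbits Inp (bits (V, C, E, b))).map out' = some (out' (V, C, E, b)) := by
    rw [unbits_bits]; rfl
  simp only [e]
  rw [out', out]

end Pool.Agent.V5helper69.ECC
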